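import Pool.Agent.R730.Bz.MainC

set_option autoImplicit false

namespace Pool.Agent.Results.MP_5ac57a_co.SchroederCount

open Pool.Agent.R730.Bz

/-- For every `n ≥ 1` the `(n+2, 2n+1)`-benzel has exactly `S_n` tilings by stones of both kinds
and bones of two of the three directions. -/
theorem result : ∀ (t₀ : Fin 3) (n : ℕ), 1 ≤ n →
    T112 t₀ ((n : ℤ) + 2) (2 * n + 1) = largeSchroeder n :=
  fun t₀ _ hn => T112_in t₀ hn

end Pool.Agent.Results.MP_5ac57a_co.SchroederCount
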